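import Pool.Agent.TH90.BB.Corr

/-!
# Orthogonal lifts and correspondences

`D : ArithData` consists of the regular schemes `𝒳` which are proper and flat over `O_E`, with
generic fibre of pure dimension `dim 𝒳`, their Chow groups `Ch` and those of their generic fibres
`Gen` (rational coefficients, all codimensions together), the restriction `res`, the classes `hom` on
the generic fibre with trivial cohomology class, the Gillet–Soulé pairing `gs`, and pull-back and
push-forward for the morphisms over `O_E`. `D.Formal` lists the properties which are used: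
compatibility with codimensions, restriction and homological triviality, linearity of the pairing
and the projection formula, for the pairing of `Ch^i(𝒳)_{ℚ,0}` with fibral classes of codimension
`d + 1 - i`. (`gs 𝒳 z w` is only used for `z` in `Ch^i(𝒳)_{ℚ,0}` and `w` in
`Ch^{d+1-i}_fin(𝒳)_ℚ`.)

`Statement 𝒳 i` is the assertion of the problem for `𝒳` and `i`, and `Liftable 𝒳 i c` says that the
class `c` in `Ch^i(X)_{ℚ,0}` has a lift in `Ch^{d+1-i}_fin(𝒳)_ℚ^⊥`.

A span `X ← G → Y` of regular proper flat schemes with a rational coefficient defines the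
correspondence `q • g_* f^*` of degree `dim Y - dim G`, and `act L` is the action of a linear
combination of spans. By de Jong's theorem on alterations every correspondence between the generic
fibres acts as such a linear combination: if `Γ ⊆ X × Y` is an integral closed subscheme, its closure
in `𝒳 × 𝒴` has an alteration `G` which is regular, proper and flat over `O_E`, and `Γ` acts as
`1 / deg • g_* f^*`. This is not formalised, the theorem is about linear combinations of spans.

Theorem. (1) Correspondences preserve the classes with orthogonal lifts. (2) If `Ch^i(X)_{ℚ,0}` is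
generated by images under correspondences of classes with orthogonal lifts (on any other schemes,
depending on the class), the assertion holds for `𝒳` and `i`. (3) If `Ch^i(X)_{ℚ,0}` is a direct
summand of the sum of the `Ch^{i+r_j}(Y_j)_{ℚ,0}` by correspondences, and the assertion holds for
the `𝒴_j` and `i + r_j`, it holds for `𝒳` and `i`. (4) If correspondences of degree zero between
`𝒳` and `𝒳'` define inverse isomorphisms of `Ch^i(X)_{ℚ,0}` and `Ch^i(X')_{ℚ,0}`, for example for
two models of the same variety, the assertions for `𝒳` and `𝒳'` are equivalent.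
-/

universe u v w

namespace Pool.Agent.Results.MP_62d77c_ag.CorrespondenceStability

open Pool.Agent.TH90.BB

theorem result (D : ArithData.{u, v, w}) (h : D.Formal) :
    (∀ (X Y : D.Model) (r i : ℤ) (L : List (D.Span X Y)), (∀ s ∈ L, s.degree = r) →
      ∀ c, D.Liftable X i c → D.Liftable Y (i + r) (D.act L c)) ∧
    (∀ (X : D.Model) (i : ℤ),
      (∀ c ∈ D.gen0 X i, ∃ (n : ℕ) (Y : Fin n → D.Model) (r : Fin n → ℤ)
        (L : ∀ j, List (D.Span (Y j) X)) (b : ∀ j, D.Gen (Y j)),
        (∀ j, ∀ s ∈ L j, s.degree = r j) ∧ (∀ j, D.Liftable (Y j) (i - r j) (b j)) ∧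
        c = ∑ j, D.act (L j) (b j)) → D.Statement X i) ∧
    (∀ (X : D.Model) (i : ℤ) (n : ℕ) (Y : Fin n → D.Model) (r : Fin n → ℤ)
      (a : ∀ j, List (D.Span X (Y j))) (b : ∀ j, List (D.Span (Y j) X)),
      (∀ j, ∀ s ∈ a j, s.degree = r j) → (∀ j, ∀ s ∈ b j, s.degree = -r j) →
      (∀ c ∈ D.gen0 X i, ∑ j, D.act (b j) (D.act (a j) c) = c) →
      (∀ j, D.Statement (Y j) (i + r j)) → D.Statement X i) ∧
    (∀ (X X' : D.Model) (i : ℤ) (a : List (D.Span X X')) (b : List (D.Span X' X)),
      (∀ s ∈ a, s.degree = 0) → (∀ s ∈ b, s.degree = 0) →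
      (∀ c ∈ D.gen0 X i, D.act b (D.act a c) = c) →
      (∀ c ∈ D.gen0 X' i, D.act a (D.act b c) = c) → (D.Statement X i ↔ D.Statement X' i)) :=
  ⟨fun _ _ _ _ L hL _ hc => hc.act h L hL,
    fun _ _ hX => ArithData.Statement.of_generated h hX,
    fun _ _ _ Y r a b ha hb hab hY => ArithData.Statement.of_summand h Y r a b ha hb hab hY,
    fun _ _ _ a b ha hb hba hab => ArithData.Statement.iff_of_inverse h a b ha hb hba hab⟩

end Pool.Agent.Results.MP_62d77c_ag.CorrespondenceStability
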