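import Pool.Agent.TH629.CM.Lift

/-!
# Identities modulo the cycle classes with orthogonal lifts
-/

set_option autoImplicit false

open CategoryTheory AlgebraicGeometry

universe u v w

open Pool.Agent.H914 Pool.Agent.H914.VarClass Pool.Agent.H914.VarClass.Obj Pool.Agent.W492.BB
  Pool.Agent.W550.Corr Pool.Agent.TH133 Pool.Agent.TH629.CM.Th

namespace Pool.Agent.Results.MP_62d77c_ag.IdentitiesModuloLiftable

/-- (1) For all `m`, `n`: all cohomologically trivial cycle classes of codimension `m` on the
varieties of dimension `n` have orthogonal lifts to all regular models over whose number field they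
are defined if and only if the identity `a n` holds, modulo the liftable classes, on the
cohomologically trivial cycle classes of codimension `m` on the varieties in the class `𝒰 n`.
(2) This holds for all `n` if and only if the identities hold for infinitely many `n`. (3) If the
motive of `X` is a direct summand of a sum of twists of motives of varieties `Y i` all of whose
cohomologically trivial classes are liftable, then all cohomologically trivial classes of `X` have
orthogonal lifts to all regular models of `X` over whose number field they are defined. -/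
theorem result {k : Type u} [Field k] {𝒱 : VarClass k} (C : TheoryData.{u, v, 0} 𝒱 ℚ)
    [IsChowProj C] {K : Type w} [Field K] (H : WeilTheoryData.{u, v, w} C K) [IsWeilProj H]
    (M : Models C) (hM : M.IsGood H) (hdim : ∀ e : ℕ, ∃ V : 𝒱.Obj, V.dim = e)
    (𝒰 : ℕ → 𝒱.Obj → Prop) (h𝒰 : IsLarge C 𝒰) (m : ℕ) (a : ℕ → Ident) :
    (∀ n, LiftingHolds M H m n ↔ HoldsModuloLiftable M H m (a n) n (𝒰 n)) ∧
    ((∀ n, LiftingHolds M H m n) ↔
      ∀ N : ℕ, ∃ n, N ≤ n ∧ HoldsModuloLiftable M H m (a n) n (𝒰 n)) ∧
    (∀ (X : 𝒱.Obj) (r : ℕ) (Y : Fin r → 𝒱.Obj) (b : ∀ i, C.A (X.prod (Y i)))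
      (c : ∀ i, C.A ((Y i).prod X)), ∑ i, C.comp (b i) (c i) = dg C X →
      (∀ (i : Fin r) (z : C.A (Y i)), H.cl z = 0 → M.Liftable z) →
      ∀ (𝒳 : M.Model X) (z : C.A X), H.cl z = 0 → M.Defined 𝒳 z → M.Lifts 𝒳 z) :=
  ⟨fun n => lifting_iff hM m n _ (h𝒰 n).1 (h𝒰 n).2 (a n), lifting_all_iff hM m hdim 𝒰 h𝒰 a,
    fun _ _ _ b c hbc hY 𝒳 _ hz hd => lifts_of_summand hM b c hbc hY 𝒳 hz hd⟩

end Pool.Agent.Results.MP_62d77c_ag.IdentitiesModuloLiftable
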