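import Pool.Agent.TH90.BB.Fibres

/-!
# The existence of orthogonal lifts is a local question

`D : ArithData` consists of the regular schemes `𝒳` which are proper and flat over `O_E`, with
generic fibre of pure dimension `dim 𝒳 = d`, their Chow groups `Ch` and those of their generic fibres
`Gen` (rational coefficients, all codimensions together), the restriction `res`, the classes `hom` on
the generic fibre with trivial cohomology class and the Gillet–Soulé pairing `gs` (pull-back and
push-forward are not used here). `gen0 𝒳 i` is `Ch^i(X)_{ℚ,0}`, `ch0 𝒳 i` is `Ch^i(𝒳)_{ℚ,0}` and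
`fin 𝒳 i` is `Ch^i_fin(𝒳)_ℚ`. `Statement 𝒳 i` is the assertion of the problem for `𝒳` and `i`, and
`Liftable 𝒳 i c` says that the class `c` in `Ch^i(X)_{ℚ,0}` has a lift in
`Ch^{d+1-i}_fin(𝒳)_ℚ^⊥`.

`F : FibreData` consists of the closed points `s` of `Spec O_E`, the classes `fib s` of cycles with
support in the fibre over `s`, the degrees of the intersections with these classes, and the Chow
groups of the base change to the completion at `s`. `F.Facts i` lists the well-known facts which are
used: localisation (a class vanishes on the generic fibre if and only if it is a sum of classes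
supported in fibres), the pairing with a fibral class over `s` is the degree of the intersection
times `log N(s)`, it is bilinear, and zero for different fibres and for almost all (smooth) fibres,
the cycles in a fibre modulo numerical equivalence form a finite-dimensional space, and the
compatibility with the completions.

* `F.LiftableAt i s c`: `c` has a lift which is orthogonal to the cycles in the fibre over `s`.
* `F.LiftableOver i s c`: the base change of `c` to the completion `E_s` has a lift to `𝒳 ⊗ O_s`
  which is orthogonal to the cycles in the special fibre.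
* `F.Radical i s w`: `w` is a cycle of codimension `d + 1 - i` in the fibre over `s` which is
  orthogonal to all cycles of codimension `i` in the fibre over `s`.

Theorem. For `c` in `Ch^i(X)_{ℚ,0}` with a lift `z`, the following are equivalent: `c` has a lift
which is orthogonal to all fibral cycles; for each `s` it has a lift which is orthogonal to the
cycles over `s`; for each `s` its base change to the completion has an orthogonal lift; `z` is
orthogonal to the radicals for all `s`. The second, third and fourth conditions are also equivalent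
for each `s` separately. Hence the assertion of the problem holds for `𝒳` and `i` if and only if the
radicals are orthogonal to `Ch^i(𝒳)_{ℚ,0}`, and if and only if all base changes to completions of
classes in `Ch^i(X)_{ℚ,0}` have orthogonal lifts.
-/

universe u v w t

namespace Pool.Agent.Results.MP_62d77c_ag.LocalGlobal

open Pool.Agent.TH90.BB

theorem result (D : ArithData.{u, v, w}) (X : D.Model) (F : ArithData.FibreData.{u, v, w, t} X)
    (i : ℤ) (h : F.Facts i) :
    (∀ c ∈ D.gen0 X i,
      (D.Liftable X i c ↔ ∀ s, F.LiftableAt i s c) ∧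
      (D.Liftable X i c ↔ ∀ s, F.LiftableOver i s c) ∧
      (∀ z ∈ D.ch0 X i, D.res X z = c →
        (D.Liftable X i c ↔ ∀ s w, F.Radical i s w → D.gs X z w = 0)) ∧
      (∀ s, (F.LiftableAt i s c ↔ F.LiftableOver i s c) ∧
        ∀ z ∈ D.ch0 X i, D.res X z = c →
          (F.LiftableAt i s c ↔ ∀ w, F.Radical i s w → D.gs X z w = 0))) ∧
    (D.Statement X i ↔ ∀ s w, F.Radical i s w → ∀ z ∈ D.ch0 X i, D.gs X z w = 0) ∧
    (D.Statement X i ↔ ∀ s, ∀ c ∈ D.gen0 X i, F.LiftableOver i s c) := by
  have glob : ∀ c ∈ D.gen0 X i, (D.Liftable X i c ↔ ∀ s, F.LiftableAt i s c) := fun c hc =>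
    ⟨fun h1 s => ArithData.FibreData.at_of_liftable h h1 s,
      ArithData.FibreData.liftable_of_at h hc⟩
  have rad : ∀ c, ∀ s, ∀ z ∈ D.ch0 X i, D.res X z = c →
      (F.LiftableAt i s c ↔ ∀ w, F.Radical i s w → D.gs X z w = 0) := fun c s z hz hr =>
    ⟨fun h1 w hw => ArithData.FibreData.radical_of_at h h1 hz hr hw,
      ArithData.FibreData.at_of_radical h hz hr⟩
  have st : D.Statement X i ↔ ∀ c ∈ D.gen0 X i, D.Liftable X i c :=
    ⟨fun h1 c hc => ⟨hc, h1 c hc⟩, fun h1 c hc => (h1 c hc).2⟩
  have hover : ∀ c ∈ D.gen0 X i, (D.Liftable X i c ↔ ∀ s, F.LiftableOver i s c) := fun c hc =>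
    (glob c hc).trans (forall_congr' fun s => ArithData.FibreData.at_iff_over h hc s)
  have radg : ∀ c ∈ D.gen0 X i, ∀ z ∈ D.ch0 X i, D.res X z = c →
      (D.Liftable X i c ↔ ∀ s w, F.Radical i s w → D.gs X z w = 0) := fun c hc z hz hr =>
    (glob c hc).trans (forall_congr' fun s => rad c s z hz hr)
  refine ⟨fun c hc => ⟨glob c hc, hover c hc, radg c hc, fun s =>
    ⟨ArithData.FibreData.at_iff_over h hc s, rad c s⟩⟩, ?_, ?_⟩
  · rw [st]
    constructor
    · intro h1 s w hw z hz
      have hc : D.res X z ∈ D.gen0 X i := ⟨h.localisation.codim z hz.1, hz.2⟩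
      exact (radg _ hc z hz rfl).mp (h1 _ hc) s w hw
    · intro h1 c hc
      obtain ⟨z, hz, hr⟩ := ArithData.FibreData.exists_lift h hc
      exact (radg c hc z hz hr).mpr fun s w hw => h1 s w hw z hz
  · rw [st]
    exact ⟨fun h1 s c hc => (hover c hc).mp (h1 c hc) s, fun h1 c hc =>
      (hover c hc).mpr fun s => h1 s c hc⟩

end Pool.Agent.Results.MP_62d77c_ag.LocalGlobal
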