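import Pool.Agent.TH76.HP.Main

/-!
# MP_62d77c_ag: orthogonal lifts of cycles, semistable models and motives of good reduction

`T : ChowTheory` collects the smooth proper varieties over number fields, their regular proper flat
models over rings of integers, the Chow rings of both and the Chow groups of cycles on the models with
support in the closed fibres, with rational coefficients, and `IsChowTheory T` lists the known facts
which are used (see the file of the definitions): the calculus of Gillet and Soulé of cycles with
supports on regular schemes, the theorems of de Jong on alterations, and the known case of smooth
models.

The orthogonality to `Ch^(d+1-i)_fin(𝒳)` is stated as `deg (z · φ) = 0` for all classes `φ` of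
codimension `d + 1 - i` with support in the closed fibres. By the localisation sequence their images in
`Ch^(d+1-i)(𝒳)` are the elements of `Ch^(d+1-i)_fin(𝒳)`, and if the restriction of `z` to `X` is
cohomologically trivial, `deg (z · φ)` is the Gillet-Soulé number of `z` and the image of `φ`.

We show:

1. Q1 (for all regular proper flat models and all codimensions) is equivalent to Q1 in the middle
  codimension `i = (d+1)/2` for strictly semistable projective models of varieties of odd dimension `d`.
2. If the cohomologically trivial cycles on `X` are sums of classes `Γ_* c`, where `c` is a
  cohomologically trivial cycle on a variety `Y` which has a model which is smooth over the ring of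
  integers of some number field (or any model with Q1), for example if the Chow motive of `X` is a
  direct factor of a sum of Tate twists of motives of such `Y`, then Q1 holds for **every** regular
  proper flat model of `X`. This is the case for the Fermat hypersurfaces and their products and for the
  other varieties whose motives are direct factors of motives of abelian varieties with potentially
  good reduction everywhere (for example with complex multiplication).
3. Call `c` liftable to `𝒳` if all its components `c_i` have a lift to `Ch^i(𝒳)` which is orthogonal to
  `Ch^(d+1-i)_fin(𝒳)`. The liftable classes are stable under products with arbitrary classes of `X`.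

Proof. For a morphism of regular models the pull-back and the push-forward preserve orthogonality to
the classes with support in the closed fibres, by the projection formula, and correspondences are
linear combinations of maps `q_* p^*` for regular models, by the theorem of de Jong.
-/

set_option autoImplicit false

namespace Pool.Agent.Results.MP_62d77c_ag.MotivesOfGoodReduction

open Pool.Agent.TH76.HP

/-- **Q1 reduces to the middle codimension of strictly semistable models; Q1 for all regular models of
the varieties whose cohomologically trivial cycles come from varieties with smooth models; the classes
with orthogonal lifts are stable under products.** -/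
theorem result (T : ChowTheory) (hT : IsChowTheory T) :
    ((∀ (X : T.Var) (𝒳 : T.Mod X), T.QOneFor 𝒳) ↔
      ∀ (X : T.Var) (𝒳 : T.Mod X) (i : ℕ), T.IsSemistable 𝒳 → 2 * i = T.dim X + 1 →
        T.QOneIn 𝒳 i) ∧
    (∀ X : T.Var, (∀ c : T.G X, T.IsTrivial c → T.IsTransported c) →
      ∀ 𝒳 : T.Mod X, T.QOneFor 𝒳) ∧
    (∀ (X : T.Var) (𝒳 : T.Mod X) (a c : T.G X), T.Liftable 𝒳 c → T.Liftable 𝒳 (a * c)) := by
  obtain ⟨_, _, h3, _, h5, h6⟩ := ChowTheory.main hT
  exact ⟨⟨fun h X 𝒳 i _ _ => h X 𝒳 i, h6⟩, h5, h3⟩

end Pool.Agent.Results.MP_62d77c_ag.MotivesOfGoodReduction
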